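import Pool.Agent.Helper14.GS.St

/-!
# Project GS (MP_627c93_nt), module B1: Fejer kernel identity
-/

namespace Pool.Agent.Helper8.GS

open Pool.Agent.Helper14.GS

private theorem dir (α : ℝ) (J : ℕ) :
    2 * Real.cos α * ∑ j ∈ Finset.range J, Real.cos (((j : ℝ) + 1) * α)
      = 2 * ∑ j ∈ Finset.range J, Real.cos (((j : ℝ) + 1) * α) + 1 - Real.cos α
        + Real.cos (((J : ℝ) + 1) * α) - Real.cos (J * α) := by
  induction J with
  | zero => simp
  | succ J ih =>
    rw [Finset.sum_range_succ, mul_add, ih, mul_add]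
    have h : 2 * Real.cos α * Real.cos (((J : ℝ) + 1) * α)
        = Real.cos (((J : ℝ) + 1 + 1) * α) + Real.cos (J * α) := by
      have e1 : ((J : ℝ) + 1 + 1) * α = ((J : ℝ) + 1) * α + α := by ring
      have e2 : (J : ℝ) * α = ((J : ℝ) + 1) * α - α := by ring
      rw [e1, e2, Real.cos_add, Real.cos_sub]
      ring
    rw [h]
    push_cast
    ring

private theorem cross (α : ℝ) (J : ℕ) :
    (∑ j ∈ Finset.range J, Real.cos (j * α)) * Real.cos (J * α)
      + (∑ j ∈ Finset.range J, Real.sin (j * α)) * Real.sin (J * α)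
      = ∑ j ∈ Finset.range J, Real.cos (((j : ℝ) + 1) * α) := by
  rw [← Finset.sum_range_reflect (fun j : ℕ => Real.cos (((j : ℝ) + 1) * α)), Finset.sum_mul,
    Finset.sum_mul, ← Finset.sum_add_distrib]
  refine Finset.sum_congr rfl fun j hj => ?_
  have hj' : j + 1 ≤ J := Finset.mem_range.mp hj
  have e : ((J - 1 - j : ℕ) : ℝ) = (J : ℝ) - 1 - j := by
    have h1 : J - 1 - j + (j + 1) = J := by omega
    have h2 : (((J - 1 - j + (j + 1) : ℕ)) : ℝ) = (J : ℝ) := by rw [h1]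
    push_cast at h2

    linarith
  rw [e]
  have e3 : ((J : ℝ) - 1 - j + 1) * α = (J : ℝ) * α - (j : ℝ) * α := by ring
  rw [e3, Real.cos_sub]
  ring

private theorem main (α c : ℝ) (n : ℕ) :
    (Real.cos α - c) * ((∑ j ∈ Finset.range (n + 1), Real.cos (j * α)) ^ 2 +
      (∑ j ∈ Finset.range (n + 1), Real.sin (j * α)) ^ 2)
    = (((n : ℝ) + 1) - 1 - c * ((n : ℝ) + 1)) +
      2 * ∑ j ∈ Finset.range n, (((n : ℝ) + 1) - ((j : ℝ) + 1)) * (1 - c) *
        Real.cos (((j : ℝ) + 1) * α) + Real.cos (((n : ℝ) + 1) * α) := by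
  induction n with
  | zero => simp; ring
  | succ n ih =>
    rw [Finset.sum_range_succ (fun j : ℕ => Real.cos (j * α)) (n + 1),
      Finset.sum_range_succ (fun j : ℕ => Real.sin (j * α)) (n + 1)]
    have hc := cross α (n + 1)
    have hd := dir α (n + 1)
    have hs : ∑ j ∈ Finset.range (n + 1), ((((n + 1 : ℕ) : ℝ) + 1) - ((j : ℝ) + 1)) * (1 - c) *
        Real.cos (((j : ℝ) + 1) * α)
        = ∑ j ∈ Finset.range n, (((n : ℝ) + 1) - ((j : ℝ) + 1)) * (1 - c) *
        Real.cos (((j : ℝ) + 1) * α)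
        + (1 - c) * ∑ j ∈ Finset.range (n + 1), Real.cos (((j : ℝ) + 1) * α) := by
      have h1 : ∑ j ∈ Finset.range n, (((n : ℝ) + 1) - ((j : ℝ) + 1)) * (1 - c) *
          Real.cos (((j : ℝ) + 1) * α)
          = ∑ j ∈ Finset.range (n + 1), (((n : ℝ) + 1) - ((j : ℝ) + 1)) * (1 - c) *
          Real.cos (((j : ℝ) + 1) * α) := by
        rw [Finset.sum_range_succ]
        simp
      rw [h1, Finset.mul_sum, ← Finset.sum_add_distrib]
      refine Finset.sum_congr rfl fun j _ => ?_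
      push_cast
      ring
    rw [hs]
    have hcs := Real.cos_sq_add_sin_sq (((n + 1 : ℕ) : ℝ) * α)
    set D := ∑ j ∈ Finset.range (n + 1), Real.cos (((j : ℝ) + 1) * α) with hD
    set A := ∑ j ∈ Finset.range (n + 1), Real.cos ((j : ℝ) * α) with hA
    set B := ∑ j ∈ Finset.range (n + 1), Real.sin ((j : ℝ) * α) with hB
    set R := ∑ j ∈ Finset.range n, (((n : ℝ) + 1) - ((j : ℝ) + 1)) * (1 - c) *
        Real.cos (((j : ℝ) + 1) * α) with hR
    set u := Real.cos (((n + 1 : ℕ) : ℝ) * α) with hu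
    set v := Real.sin (((n + 1 : ℕ) : ℝ) * α) with hv
    have hu' : Real.cos (((n : ℝ) + 1) * α) = u := by rw [hu]; push_cast; rfl
    rw [hu'] at ih
    set p := Real.cos ((((n + 1 : ℕ) : ℝ) + 1) * α) with hp
    push_cast
    linear_combination ih + (Real.cos α - c) * hcs + 2 * (Real.cos α - c) * hc + hd

theorem B1 : StB1 := by
  intro J c α hJ
  obtain ⟨n, rfl⟩ : ∃ n, J = n + 1 := ⟨J - 1, by omega⟩
  have h := main α c n
  have e : ∑ j ∈ Finset.Icc 1 (n + 1 - 1), (((n + 1 : ℕ) : ℝ) - j) * (1 - c) * Real.cos (j * α)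
      = ∑ j ∈ Finset.range n, (((n : ℝ) + 1) - ((j : ℝ) + 1)) * (1 - c) *
        Real.cos (((j : ℝ) + 1) * α) := by
    rw [Nat.add_sub_cancel]
    have : Finset.Icc 1 n = Finset.Ico (0 + 1) (n + 1) := by
      ext x
      simp [Finset.mem_Icc, Finset.mem_Ico]
    rw [this, ← Finset.sum_Ico_add' (fun j : ℕ => (((n + 1 : ℕ) : ℝ) - j) * (1 - c) *
      Real.cos (j * α)) 0 n 1, Finset.range_eq_Ico]
    refine Finset.sum_congr rfl fun j _ => ?_
    push_cast
    ring_nf
  rw [e, h]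
  push_cast
  ring

end Pool.Agent.Helper8.GS
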