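import Pool.Agent.Helper14.GS.St

/-!
# Project GS (MP_627c93_nt), module B2: positivity argument
-/

namespace Pool.Agent.Helper8.GS

open Pool.Agent.Helper14.GS

private theorem gauss (n : ℕ) :
    ∑ j ∈ Finset.Icc 1 n, (((n : ℝ) + 1) - j) = ((n : ℝ) + 1) * n / 2 := by
  have h : ∀ m : ℕ, ∀ c : ℝ, ∑ j ∈ Finset.Icc 1 m, (c - (j : ℝ)) = m * c - m * (m + 1) / 2 := by
    intro m c
    induction m with
    | zero => simp
    | succ m ih =>
      rw [Finset.sum_Icc_succ_top (by omega), ih]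
      push_cast
      ring
  rw [h]
  ring

theorem B2 (h1 : StB1) : StB2 := by
  intro X _ _ v L δ J hδ hδL hv hJ h2 hS
  by_contra hcon
  push Not at hcon
  set c : ℝ := Real.cos (2 * Real.pi * δ / L) with hc
  have hL : 0 < L := by linarith
  have hJ0 : (0 : ℝ) < J := by exact_mod_cast hJ
  have hJ1 : (1 : ℝ) ≤ J := by exact_mod_cast hJ
  have hc1 : c ≤ 1 := Real.cos_le_one _
  have key : ∀ x, Real.cos (2 * Real.pi * v x / L) ≤ c := by
    intro x
    rw [← Real.cos_abs (2 * Real.pi * v x / L)]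
    have habs : |2 * Real.pi * v x / L| = 2 * Real.pi * |v x| / L := by
      rw [abs_div, abs_mul, abs_of_pos hL, abs_of_pos (by positivity : 0 < 2 * Real.pi)]
    rw [habs]
    apply Real.cos_le_cos_of_nonneg_of_le_pi
    · positivity
    · rw [div_le_iff₀ hL]
      have := hv x
      nlinarith [Real.pi_pos]
    · have := hcon x
      gcongr
  have key2 : ∀ x, ((J : ℝ) - 1 - c * J) +
      2 * ∑ j ∈ Finset.Icc 1 (J - 1), ((J : ℝ) - j) * (1 - c) *
        Real.cos (j * (2 * Real.pi * v x / L)) + Real.cos (J * (2 * Real.pi * v x / L)) ≤ 0 := by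
    intro x
    rw [← h1 J c (2 * Real.pi * v x / L) hJ]
    exact mul_nonpos_of_nonpos_of_nonneg (by linarith [key x]) (by positivity)
  have hsum : ∑ x : X, (((J : ℝ) - 1 - c * J) +
      2 * ∑ j ∈ Finset.Icc 1 (J - 1), ((J : ℝ) - j) * (1 - c) *
        Real.cos (j * (2 * Real.pi * v x / L)) + Real.cos (J * (2 * Real.pi * v x / L))) ≤ 0 :=
    Finset.sum_nonpos fun x _ => key2 x
  have harg : ∀ (j : ℕ) (x : X), (j : ℝ) * (2 * Real.pi * v x / L)
      = 2 * Real.pi * ((j : ℝ) / L) * v x := by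
    intro j x
    ring
  simp only [harg] at hsum
  rw [Finset.sum_add_distrib, Finset.sum_add_distrib, ← Finset.mul_sum, Finset.sum_comm] at hsum
  simp only [← Finset.mul_sum] at hsum
  rw [Finset.sum_const, Finset.card_univ, nsmul_eq_mul] at hsum
  set M : ℝ := (Fintype.card X : ℝ) with hM
  have hM0 : 0 < M := by
    rw [hM]
    exact_mod_cast Fintype.card_pos
  have hlow : ∑ j ∈ Finset.Icc 1 (J - 1), ((J : ℝ) - j) * (1 - c) * (-(M / (4 * J)))
      ≤ ∑ j ∈ Finset.Icc 1 (J - 1), ((J : ℝ) - j) * (1 - c) *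
        ∑ x : X, Real.cos (2 * Real.pi * ((j : ℝ) / L) * v x) := by
    refine Finset.sum_le_sum fun j hj => ?_
    rw [Finset.mem_Icc] at hj
    have hjJ : (j : ℝ) ≤ J := by
      have : j ≤ J := by omega
      exact_mod_cast this
    apply mul_le_mul_of_nonneg_left (hS j hj.1 (by omega))
    exact mul_nonneg (by linarith) (by linarith)
  have hlast := hS J hJ le_rfl
  rw [← Finset.sum_mul, ← Finset.sum_mul] at hlow
  have hg : ∑ j ∈ Finset.Icc 1 (J - 1), ((J : ℝ) - j) = J * ((J : ℝ) - 1) / 2 := by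
    obtain ⟨n, rfl⟩ : ∃ n, J = n + 1 := ⟨J - 1, by omega⟩
    have := gauss n
    rw [Nat.add_sub_cancel]
    push_cast
    rw [this]
    ring
  rw [hg] at hlow
  have e1 : (J : ℝ) * ((J : ℝ) - 1) / 2 * (1 - c) * (-(M / (4 * J)))
      = -(M * (((J : ℝ) - 1) * (1 - c)) / 8) := by
    field_simp
    ring
  rw [e1] at hlow
  have e2 : M / (4 * J) ≤ M / 4 := by
    apply div_le_div_of_nonneg_left hM0.le (by norm_num)
    linarith
  have hfin : M * ((J : ℝ) - 1 - c * J) - M * (((J : ℝ) - 1) * (1 - c)) / 4 - M / 4 ≤ 0 := by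
    linarith
  have h3 : 0 < (J : ℝ) - 1 - c * J - (((J : ℝ) - 1) * (1 - c)) / 4 - 1 / 4 := by
    nlinarith
  nlinarith [mul_pos hM0 h3]

end Pool.Agent.Helper8.GS
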