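import Pool.Agent.Helper14.GS.St

/-!
# Project GS (MP_627c93_nt), module B4: geometric sum of exponentials
-/

namespace Pool.Agent.Helper8.GS

open Pool.Agent.Helper14.GS

theorem B4 : StB4 := by
  intro E t
  set z : ℂ := Complex.exp (2 * Real.pi * Complex.I * (t : ℝ)) with hz
  have hsum : ∑ x ∈ Finset.range E, Complex.exp (2 * Real.pi * Complex.I * (x * t : ℝ))
      = ∑ x ∈ Finset.range E, z ^ x := by
    refine Finset.sum_congr rfl fun x _ => ?_
    rw [hz, ← Complex.exp_nat_mul]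
    congr 1
    push_cast
    ring
  rw [hsum]
  have hznorm : ‖z‖ = 1 := by
    rw [hz, show (2 * Real.pi * Complex.I * (t : ℝ) : ℂ) = ((2 * Real.pi * t : ℝ) : ℂ) * Complex.I by
      push_cast; ring]
    exact Complex.norm_exp_ofReal_mul_I _
  have hgeom : (∑ x ∈ Finset.range E, z ^ x) * (z - 1) = z ^ E - 1 := geom_sum_mul z E
  have h2 : ‖z ^ E - 1‖ ≤ 2 := by
    calc ‖z ^ E - 1‖ ≤ ‖z ^ E‖ + ‖(1 : ℂ)‖ := norm_sub_le _ _
      _ = 2 := by rw [norm_pow, hznorm]; norm_num
  have h3 : 4 * |t - round t| ≤ ‖z - 1‖ := by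
    have h4 : z = Complex.exp (Complex.I * ((2 * Real.pi * (t - round t) : ℝ) : ℂ)) := by
      rw [hz]
      have h5 : (2 * Real.pi * Complex.I * (t : ℝ) : ℂ)
          = Complex.I * ((2 * Real.pi * (t - round t) : ℝ) : ℂ)
            + (round t : ℤ) * (2 * Real.pi * Complex.I) := by
        push_cast
        ring
      rw [h5, Complex.exp_add, Complex.exp_int_mul_two_pi_mul_I, mul_one]
    rw [h4, Complex.norm_exp_I_mul_ofReal_sub_one]
    have h6 : |Real.pi * (t - round t)| ≤ Real.pi / 2 := by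
      rw [abs_mul, abs_of_pos Real.pi_pos]
      have := abs_sub_round t
      nlinarith [Real.pi_pos]
    have h7 := Real.mul_abs_le_abs_sin h6
    rw [abs_mul, abs_of_pos Real.pi_pos] at h7
    have h8 : 2 / Real.pi * (Real.pi * |t - round t|) = 2 * |t - round t| := by
      field_simp
    rw [h8] at h7
    rw [show 2 * Real.pi * (t - round t) / 2 = Real.pi * (t - round t) by ring]
    rw [norm_mul, Real.norm_eq_abs, Real.norm_eq_abs]
    have : |(2 : ℝ)| = 2 := by norm_num
    rw [this]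
    linarith
  have h9 : ‖∑ x ∈ Finset.range E, z ^ x‖ * (4 * |t - round t|) ≤ 2 := by
    calc ‖∑ x ∈ Finset.range E, z ^ x‖ * (4 * |t - round t|)
        ≤ ‖∑ x ∈ Finset.range E, z ^ x‖ * ‖z - 1‖ :=
          mul_le_mul_of_nonneg_left h3 (norm_nonneg _)
      _ = ‖z ^ E - 1‖ := by rw [← norm_mul, hgeom]
      _ ≤ 2 := h2
  linarith

end Pool.Agent.Helper8.GS
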