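import Pool.Agent.Helper79.GS.St5

/-!
# Project GS (MP_c2d095_lc): module TG7 (calls of the kinds 7 and 0)
-/

set_option autoImplicit false

namespace Pool.Agent.Helper8.GS

open Pool.Agent.Helper79.GS Pool.Agent.Helper19.SK Pool.Agent.Helper73.DC Finset
open scoped Classical

private lemma b01_le (p : Prop) : b01 p ≤ 1 := by
  unfold b01
  split_ifs <;> simp

private lemma NN_big (hBND : StBND) (w : List (Fin 5)) : 1 < NN 16 w := by
  obtain ⟨-, -, -, h14, -, -, -, -, -, -, -, -, -, -, -, -, -, h16, -⟩ := hBND w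
  have h1 : 16 ^ 14 ≤ PhN (NN 16 w) w ^ 14 := Nat.pow_le_pow_left h16 14
  have h2 : 1 < 16 ^ 14 := by norm_num
  omega

private lemma b01_lt (hBND : StBND) (w : List (Fin 5)) (p : Prop) : b01 p < NN 16 w :=
  lt_of_le_of_lt (b01_le p) (NN_big hBND w)

private lemma b01_congr {p q : Prop} (h : p ↔ q) : b01 p = b01 q := by
  unfold b01
  simp only [h]

private lemma b01_ne (p : Prop) : b01 p ≠ 0 ↔ p := by
  unfold b01
  split_ifs with h <;> simp [h]

private lemma b01_eq0 (p : Prop) : b01 p = 0 ↔ ¬ p := by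
  unfold b01
  split_ifs with h <;> simp [h]

private lemma b01_eq1 (p : Prop) : b01 p = 1 ↔ p := by
  unfold b01
  split_ifs with h <;> simp [h]

private lemma kind7 (hBND : StBND) (hFLD : StFLD) (w : List (Fin 5)) (r c a b u k m fl d s t x : ℕ)
    (hok : OkF w 7 r c a b u k m fl d s t x) : TagOK w (zz (NN 16 w) w 7 r c a b u k m fl d s t x) := by
  have hN := NN_big hBND w
  obtain ⟨⟨f0, f1, f2, -, -, f5, -⟩, hz, hv, hr, -⟩ := (hFLD w).2.2.2 7 r c a b u k m fl d s t x hok
  obtain ⟨-, -, hR, hc, ha, hb, hu, hk, hk', hm, hfl, hd, hs, ht, hx, -⟩ := hok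
  have hok1 : OkF w 1 r c 0 0 u 0 0 0 0 0 0 0 := by
    refine ⟨le_rfl, by norm_num, hR, hc, ?_, ?_, hu, Nat.zero_le _, fun _ => Nat.zero_le _, Nat.zero_le _,
      Nat.zero_le _, Nat.zero_le _, ?_, ?_, ?_, fun h => absurd h (by norm_num)⟩
    · exact lt_of_le_of_lt (Nat.zero_le _) ha
    · exact lt_of_le_of_lt (Nat.zero_le _) ha
    · exact lt_of_le_of_lt (Nat.zero_le _) hs
    · exact lt_of_le_of_lt (Nat.zero_le _) hs
    · exact lt_of_le_of_lt (Nat.zero_le _) hx
  obtain ⟨-, -, hv1, hr1, hk1⟩ := (hFLD w).2.2.2 1 r c 0 0 u 0 0 0 0 0 0 0 hok1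
  set z := zz (NN 16 w) w 7 r c a b u k m fl d s t x with hzdef
  have hini : IniN (NN 16 w) w z = 0 := by
    unfold IniN
    rw [f0]
    simp
  have hlen : LenN (NN 16 w) w z = 1 := by
    unfold LenN
    rw [f0]
    simp
  have hdel : ∀ j, DelN (NN 16 w) w z j = zz (NN 16 w) w 1 r c 0 0 u 0 0 0 0 0 0 0 := by
    intro j
    unfold DelN
    rw [f0, f1, f2, f5]
    simp
  have hstp : ∀ j e y, StpN (NN 16 w) w z j e y = if c = 1 then b01 (y ≠ 0) else b01 (y = 0) := by
    intro j e y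
    unfold StpN
    rw [f0, f2]
    simp
  have hout : ∀ e, OutN (NN 16 w) w z e = b01 (e = 1) := by
    intro e
    unfold OutN
    rw [f0]
    simp
  refine ⟨?_, ?_, ?_, ?_, ?_⟩
  · rw [hini]
    omega
  · rw [hlen]
    exact hN
  · intro j _
    refine ⟨?_, ?_, ?_⟩
    · rw [hdel]
      exact hk1
    · rw [hdel, hr1, hr]
      unfold rkF
      simp
    · intro e _ y _
      rw [hstp]
      split_ifs
      · exact b01_lt hBND w _
      · exact b01_lt hBND w _
  · intro e _
    rw [hout]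
    exact b01_lt hBND w _
  · rw [hlen, hout, hv]
    show ValF w 7 r c a b u k m fl d s t x = b01 (StpN (NN 16 w) w z 0 (IniN (NN 16 w) w z)
      (ValW w (DelN (NN 16 w) w z 0)) = 1)
    rw [hstp, hdel, hv1]
    have e7 : ValF w 7 r c a b u k m fl d s t x =
        b01 (if c = 1 then WN (AW w) (HW w) r true u else ¬ WN (AW w) (HW w) r false u) := by
      unfold ValF
      simp
    have e1 : ValF w 1 r c 0 0 u 0 0 0 0 0 0 0 = b01 (WN (AW w) (HW w) r (cB c) u) := by
      unfold ValF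
      simp
    rw [e7, e1]
    apply b01_congr
    by_cases h1 : c = 1
    · have hcb : cB c = true := by
        unfold cB
        simp [h1]
      rw [if_pos h1, if_pos h1, hcb, b01_eq1, b01_ne]
    · have hcb : cB c = false := by
        unfold cB
        simp [h1]
      rw [if_neg h1, if_neg h1, hcb, b01_eq1, b01_eq0]

private lemma kind0 (hBND : StBND) (hFLD : StFLD) (w : List (Fin 5)) : TagOK w 0 := by
  have hN := NN_big hBND w
  have f0 : fi (NN 16 w) w 0 0 = 0 := by
    unfold fi dg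
    simp
  have hini : IniN (NN 16 w) w 0 = 0 := by
    unfold IniN
    rw [f0]
    simp
  have hlen : LenN (NN 16 w) w 0 = 0 := by
    unfold LenN
    rw [f0]
    simp
  have hout : ∀ e, OutN (NN 16 w) w 0 e = b01 (e = 1) := by
    intro e
    unfold OutN
    rw [f0]
    simp
  refine ⟨?_, ?_, ?_, ?_, ?_⟩
  · rw [hini]
    omega
  · rw [hlen]
    omega
  · intro j hj
    rw [hlen] at hj
    omega
  · intro e _
    rw [hout]
    exact b01_lt hBND w _
  · rw [hlen, hout, (hFLD w).1]
    show 0 = b01 (IniN (NN 16 w) w 0 = 1)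
    rw [hini]
    unfold b01
    simp

theorem hTG7 (hBND : StBND) (hFLD : StFLD) : StTG7 :=
  ⟨fun w r c a b u k m fl d s t x hok => kind7 hBND hFLD w r c a b u k m fl d s t x hok,
    fun w => kind0 hBND hFLD w⟩

end Pool.Agent.Helper8.GS
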