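import Pool.Agent.Helper14.GS.St

/-!
# Project GS (MP_627c93_nt), module B3: product formula for a finite exponential sum
-/

namespace Pool.Agent.Helper8.GS

open Pool.Agent.Helper14.GS

private theorem pair (E : ℕ) (θ w : ℝ) :
    ∑ p : Fin E × Fin E, Complex.exp (2 * Real.pi * Complex.I *
        ((θ * ((((p.1 : ℕ) : ℝ) - ((p.2 : ℕ) : ℝ)) * w) : ℝ) : ℂ))
      = ((‖∑ x ∈ Finset.range E, Complex.exp (2 * Real.pi * Complex.I * (θ * (x * w) : ℝ))‖
        ^ 2 : ℝ) : ℂ) := by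
  set Φ := ∑ x ∈ Finset.range E, Complex.exp (2 * Real.pi * Complex.I * (θ * (x * w) : ℝ)) with hΦ
  have h1 : ((‖Φ‖ ^ 2 : ℝ) : ℂ) = Φ * (starRingEnd ℂ) Φ := by
    rw [Complex.mul_conj, Complex.normSq_eq_norm_sq]
  have h2 : Φ = ∑ x : Fin E, Complex.exp (2 * Real.pi * Complex.I *
      ((θ * (((x : ℕ) : ℝ) * w) : ℝ) : ℂ)) := by
    rw [hΦ, Finset.sum_range]
  have h3 : (starRingEnd ℂ) Φ = ∑ y : Fin E, Complex.exp (-(2 * Real.pi * Complex.I *
      ((θ * (((y : ℕ) : ℝ) * w) : ℝ) : ℂ))) := by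
    rw [h2, map_sum]
    refine Finset.sum_congr rfl fun y _ => ?_
    rw [← Complex.exp_conj]
    congr 1
    rw [map_mul, map_mul, map_mul, Complex.conj_I, Complex.conj_ofReal, Complex.conj_ofReal]
    have : (starRingEnd ℂ) 2 = 2 := by
      have := Complex.conj_ofReal 2
      simpa using this
    rw [this]
    ring
  rw [h1, h3]
  conv_rhs => rw [h2]
  rw [Finset.sum_mul_sum, Fintype.sum_prod_type]
  refine Finset.sum_congr rfl fun x _ => Finset.sum_congr rfl fun y _ => ?_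
  rw [← Complex.exp_add]
  congr 1
  push_cast
  ring

theorem B3 : StB3 := by
  intro Q w E r τ θ
  have hcomplex : ∑ f : (Q → Fin r → Fin E × Fin E),
      Complex.exp (2 * Real.pi * Complex.I * ((θ *
        ((∑ q : Q, ∑ a : Fin r, (((f q a).1 : ℕ) - ((f q a).2 : ℕ) : ℝ) * w q) - τ) : ℝ) : ℂ))
      = Complex.exp (-(2 * Real.pi * Complex.I * ((θ * τ : ℝ) : ℂ))) *
      ∏ q ∈ Q, (((‖∑ x ∈ Finset.range E,
        Complex.exp (2 * Real.pi * Complex.I * (θ * (x * w q) : ℝ))‖ ^ 2 : ℝ) : ℂ)) ^ r := by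
    have h1 : ∀ f : (Q → Fin r → Fin E × Fin E),
        Complex.exp (2 * Real.pi * Complex.I * ((θ *
          ((∑ q : Q, ∑ a : Fin r, (((f q a).1 : ℕ) - ((f q a).2 : ℕ) : ℝ) * w q) - τ) : ℝ) : ℂ))
        = Complex.exp (-(2 * Real.pi * Complex.I * ((θ * τ : ℝ) : ℂ))) *
          ∏ q : Q, ∏ a : Fin r, Complex.exp (2 * Real.pi * Complex.I *
            ((θ * (((((f q a).1 : ℕ) : ℝ) - (((f q a).2 : ℕ) : ℝ)) * w q) : ℝ) : ℂ)) := by
      intro f
      simp only [← Complex.exp_sum]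
      rw [← Complex.exp_add]
      congr 1
      push_cast
      simp only [Finset.mul_sum, mul_sub]
      ring
    rw [Finset.sum_congr rfl fun f _ => h1 f, ← Finset.mul_sum]
    congr 1
    have h2 := Finset.prod_univ_sum (fun _ : Q => (Finset.univ : Finset (Fin r → Fin E × Fin E)))
      (fun q g => ∏ a : Fin r, Complex.exp (2 * Real.pi * Complex.I *
            ((θ * (((((g a).1 : ℕ) : ℝ) - (((g a).2 : ℕ) : ℝ)) * w q) : ℝ) : ℂ)))
    rw [Fintype.piFinset_univ] at h2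
    rw [← h2, ← Finset.prod_coe_sort Q (fun q => (((‖∑ x ∈ Finset.range E,
        Complex.exp (2 * Real.pi * Complex.I * (θ * (x * w q) : ℝ))‖ ^ 2 : ℝ) : ℂ)) ^ r)]
    refine Finset.prod_congr rfl fun q _ => ?_
    rw [← pair E θ (w q), Fintype.sum_pow]
  have hre := congrArg Complex.re hcomplex
  rw [Complex.re_sum] at hre
  have hL : ∀ t : ℝ, (Complex.exp (2 * Real.pi * Complex.I * (t : ℂ))).re
      = Real.cos (2 * Real.pi * t) := by
    intro t
    rw [show (2 * Real.pi * Complex.I * (t : ℂ)) = ((2 * Real.pi * t : ℝ) : ℂ) * Complex.I by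
      push_cast; ring, Complex.exp_ofReal_mul_I_re]
  simp only [hL] at hre
  have hR : (Complex.exp (-(2 * Real.pi * Complex.I * ((θ * τ : ℝ) : ℂ))) *
      ∏ q ∈ Q, (((‖∑ x ∈ Finset.range E,
        Complex.exp (2 * Real.pi * Complex.I * (θ * (x * w q) : ℝ))‖ ^ 2 : ℝ) : ℂ)) ^ r).re
      = Real.cos (2 * Real.pi * θ * τ) *
      ∏ q ∈ Q, (‖∑ x ∈ Finset.range E, Complex.exp (2 * Real.pi * Complex.I * (θ * (x * w q) : ℝ))‖
        ^ 2) ^ r := by
    have e1 : ∏ q ∈ Q, (((‖∑ x ∈ Finset.range E,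
        Complex.exp (2 * Real.pi * Complex.I * (θ * (x * w q) : ℝ))‖ ^ 2 : ℝ) : ℂ)) ^ r
        = ((∏ q ∈ Q, (‖∑ x ∈ Finset.range E,
          Complex.exp (2 * Real.pi * Complex.I * (θ * (x * w q) : ℝ))‖ ^ 2) ^ r : ℝ) : ℂ) := by
      push_cast
      rfl
    rw [e1, Complex.re_mul_ofReal]
    congr 1
    rw [show (-(2 * Real.pi * Complex.I * ((θ * τ : ℝ) : ℂ)))
      = ((-(2 * Real.pi * θ * τ) : ℝ) : ℂ) * Complex.I by push_cast; ring,
      Complex.exp_ofReal_mul_I_re, Real.cos_neg]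
  rw [hR] at hre
  rw [← hre]
  refine Finset.sum_congr rfl fun f _ => ?_
  congr 1
  ring

end Pool.Agent.Helper8.GS
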