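import Pool.Agent.Helper14.GS.St

/-!
# Project GS (MP_627c93_nt), module C1: consecutive prime powers, gcd of the exponents
-/

namespace Pool.Agent.Helper8.GS

open Pool.Agent.Helper14.GS Pool.Agent.Helper10.EP

theorem C1 : StC1 := by
  intro y hy hgap
  obtain ⟨X₀, hX₀1, hX₀⟩ := hgap
  refine ⟨max X₀ 2, le_max_right _ _, ?_⟩
  intro P hP hPy x z hcons hx hz hlog
  obtain ⟨hxP, hzP, hxz, hbet⟩ := hcons
  obtain ⟨p, a, hp, ha, hxe⟩ := (isPrimePow_nat_iff x).mp hx
  obtain ⟨q, b, hq, hb, hze⟩ := (isPrimePow_nat_iff z).mp hz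
  have hpP : p ∈ P := hxP.2 p hp (by rw [← hxe]; exact dvd_pow_self p (by omega))
  have hqP : q ∈ P := hzP.2 q hq (by rw [← hze]; exact dvd_pow_self q (by omega))
  have hx0 : (0 : ℝ) < x := by exact_mod_cast hxP.1
  have hz0 : (0 : ℝ) < z := by exact_mod_cast hzP.1
  have hlx : Real.log x = a * Real.log p := by
    rw [← hxe]
    push_cast
    rw [Real.log_pow]
  have hlz : Real.log z = b * Real.log q := by
    rw [← hze]
    push_cast
    rw [Real.log_pow]
  have hlt : Real.log x < Real.log z := Real.log_lt_log hx0 (by exact_mod_cast hxz)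
  have hup : Real.log z < Real.log x + Real.log x ^ (-(3 : ℝ)) := by
    obtain ⟨m, hm1, hmy, hm2, hm3⟩ := hX₀ (Real.log x) (le_trans (le_max_left _ _) hlog)
    have hmS : m ∈ SUnit P := ⟨by omega, fun r hr hrm => hPy r hr (hmy r hr hrm)⟩
    have hm0 : (0 : ℝ) < m := by exact_mod_cast hmS.1
    have hxm : x < m := by
      have := (Real.log_lt_log_iff hx0 hm0).mp hm2
      exact_mod_cast this
    have hzm : z ≤ m := by
      rcases hbet m hmS with h | h
      · omega
      · exact h
    have : Real.log z ≤ Real.log m := Real.log_le_log hz0 (by exact_mod_cast hzm)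
    linarith
  have hlog2 : 2 ≤ Real.log x := le_trans (le_max_right _ _) hlog
  have hsmall : Real.log x ^ (-(3 : ℝ)) ≤ 1 / 8 := by
    have h1 : Real.log x ^ (-(3 : ℝ)) ≤ (2 : ℝ) ^ (-(3 : ℝ)) :=
      Real.rpow_le_rpow_of_nonpos (by norm_num) hlog2 (by norm_num)
    have h2 : (2 : ℝ) ^ (-(3 : ℝ)) = 1 / 8 := by
      rw [Real.rpow_neg (by norm_num)]
      have : (2 : ℝ) ^ (3 : ℝ) = 8 := by
        rw [show (3 : ℝ) = ((3 : ℕ) : ℝ) by norm_num, Real.rpow_natCast]
        norm_num
      rw [this]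
      norm_num
    rw [h2] at h1
    exact h1
  refine ⟨p, q, a, b, hpP, hqP, ?_, ha, hb, ?_, hxe.symm, hze.symm, by linarith, ?_⟩
  · -- p ≠ q
    intro hpq
    subst hpq
    have hab : a < b := by
      rw [← hxe, ← hze] at hxz
      exact (Nat.pow_lt_pow_iff_right hp.one_lt).mp hxz
    have h1 : 2 * x ≤ z := by
      rw [← hxe, ← hze]
      calc 2 * p ^ a ≤ p * p ^ a := Nat.mul_le_mul_right _ hp.two_le
        _ = p ^ (a + 1) := by ring
        _ ≤ p ^ b := Nat.pow_le_pow_right hp.pos hab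
    have h2 : Real.log 2 + Real.log x ≤ Real.log z := by
      rw [← Real.log_mul (by norm_num) hx0.ne']
      apply Real.log_le_log (by positivity)
      exact_mod_cast h1
    have h3 := Real.log_two_gt_d9
    linarith
  · -- coprime
    by_contra hg
    set g := Nat.gcd a b with hgdef
    have hg0 : 0 < g := Nat.gcd_pos_of_pos_left b ha
    have hg1 : g ≠ 1 := hg
    have hg2 : 2 ≤ g := by omega
    obtain ⟨a', ha'⟩ := Nat.gcd_dvd_left a b
    obtain ⟨b', hb'⟩ := Nat.gcd_dvd_right a b
    rw [← hgdef] at ha' hb'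
    have ha'a : a' ≤ a := by
      rw [ha']
      exact Nat.le_mul_of_pos_left a' hg0
    have hwS : p ^ (a - a') * q ^ b' ∈ SUnit P := by
      refine ⟨Nat.mul_pos (pow_pos hp.pos _) (pow_pos hq.pos _), fun r hr hrw => ?_⟩
      rcases (Nat.Prime.dvd_mul hr).mp hrw with h | h
      · have := (Nat.prime_dvd_prime_iff_eq hr hp).mp (hr.dvd_of_dvd_pow h)
        rw [this]; exact hpP
      · have := (Nat.prime_dvd_prime_iff_eq hr hq).mp (hr.dvd_of_dvd_pow h)
        rw [this]; exact hqP
    have hp0 : (0 : ℝ) < p := by exact_mod_cast hp.pos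
    have hq0 : (0 : ℝ) < q := by exact_mod_cast hq.pos
    have hlw : Real.log ((p ^ (a - a') * q ^ b' : ℕ) : ℝ)
        = Real.log x + (Real.log z - Real.log x) / g := by
      push_cast
      rw [Real.log_mul (by positivity) (by positivity), Real.log_pow, Real.log_pow,
        Nat.cast_sub ha'a, hlx, hlz]
      have hgr : (g : ℝ) ≠ 0 := by exact_mod_cast hg0.ne'
      have e1 : (a : ℝ) = g * a' := by exact_mod_cast ha'
      have e2 : (b : ℝ) = g * b' := by exact_mod_cast hb'
      rw [e1, e2]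
      field_simp
      ring
    have hw0 : (0 : ℝ) < ((p ^ (a - a') * q ^ b' : ℕ) : ℝ) := by exact_mod_cast hwS.1
    have hgr2 : (2 : ℝ) ≤ g := by exact_mod_cast hg2
    have hd0 : 0 < Real.log z - Real.log x := by linarith
    have hdg : (Real.log z - Real.log x) / g < Real.log z - Real.log x := by
      rw [div_lt_iff₀ (by linarith)]
      nlinarith
    have hdg0 : 0 < (Real.log z - Real.log x) / g := div_pos hd0 (by linarith)
    rcases hbet _ hwS with h | h
    · have h1 : Real.log ((p ^ (a - a') * q ^ b' : ℕ) : ℝ) ≤ Real.log x :=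
        Real.log_le_log hw0 (by exact_mod_cast h)
      linarith
    · have h1 : Real.log z ≤ Real.log ((p ^ (a - a') * q ^ b' : ℕ) : ℝ) :=
        Real.log_le_log hz0 (by exact_mod_cast h)
      linarith
  · rw [← hlx, ← hlz]
    linarith

end Pool.Agent.Helper8.GS
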