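import Pool.Agent.Helper14.GS.St

/-!
# Project GS (MP_627c93_nt), module C4: final counting
-/

namespace Pool.Agent.Helper8.GS

open Pool.Agent.Helper14.GS Pool.Agent.Helper10.EP

/-- the admissible exponents for the pair `(p, q)` -/
private def TP (p q : ℕ) (a : ℕ) : Prop :=
  5 ≤ a ∧ ∃ b : ℕ, 1 ≤ b ∧ Nat.Coprime a b ∧ 0 < b * Real.log q - a * Real.log p ∧
    b * Real.log q - a * Real.log p < (a * Real.log p) ^ (-(3 : ℝ))

private theorem log16 : Real.exp 1 < Real.log 16 := by
  have h1 : Real.log 16 = 4 * Real.log 2 := by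
    rw [show (16 : ℝ) = 2 ^ 4 by norm_num, Real.log_pow]
    norm_num
  have h2 := Real.log_two_gt_d9
  have h3 := Real.exp_one_lt_d9
  rw [h1]
  linarith

private theorem ll16 : 1 < Real.log (Real.log 16) := by
  rw [Real.lt_log_iff_exp_lt (lt_trans (Real.exp_pos 1) log16)]
  exact log16

theorem C4 (hB : StB7) (h1 : StC1) (h2 : StC2) (h3 : StC3) : StC4 := by
  classical
  obtain ⟨y₀, hy3, hgap⟩ := hB 3 (by norm_num)
  obtain ⟨X₁, hX₁, hC1⟩ := h1 y₀ hy3 hgap
  refine ⟨y₀, ?_⟩
  intro P hP hPy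
  have h2P : 2 ∈ P := hPy 2 Nat.prime_two (by omega)
  have hPs : ∀ p ∈ (P : Set ℕ), p.Prime := fun p hp => hP p (Finset.mem_coe.mp hp)
  have hPys : ∀ p : ℕ, p.Prime → p ≤ y₀ → p ∈ (P : Set ℕ) := fun p hp hpy =>
    Finset.mem_coe.mpr (hPy p hp hpy)
  -- constants
  set A' : Finset ℕ := Finset.range (⌈Real.exp X₁⌉₊ + 1) ∪
    (P ×ˢ Finset.range 5).image (fun pa => pa.1 ^ pa.2) with hA'
  set c : ℝ := Real.log (Real.log (Real.log 16)) with hc
  have hc0 : 0 < c := Real.log_pos ll16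
  refine ⟨((A'.card : ℝ) + 3 * (P.card : ℝ) ^ 2) / c + 2 * (P.card : ℝ) ^ 2, ?_⟩
  intro X hX
  set S : Set (ℕ × ℕ) := {xz : ℕ × ℕ | (xz.1 : ℝ) ≤ X ∧ Consecutive (P : Set ℕ) xz.1 xz.2 ∧
    IsPrimePow xz.1 ∧ IsPrimePow xz.2} with hS
  have hX0 : 0 < X := by linarith
  -- finiteness
  have hfin : S.Finite := by
    apply Set.Finite.subset ((Set.finite_Iic ⌊X⌋₊).prod (Set.finite_Iic (2 * ⌊X⌋₊)))
    rintro ⟨x, z⟩ ⟨hx1, hx2, _, _⟩
    obtain ⟨hxP, hzP, hxz, hbet⟩ := hx2
    have hxX : x ≤ ⌊X⌋₊ := Nat.le_floor hx1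
    have h2x : 2 * x ∈ SUnit (P : Set ℕ) := by
      refine ⟨by have := hxP.1; omega, fun r hr hrd => ?_⟩
      rcases (Nat.Prime.dvd_mul hr).mp hrd with h | h
      · rw [(Nat.prime_dvd_prime_iff_eq hr Nat.prime_two).mp h]
        exact Finset.mem_coe.mpr h2P
      · exact hxP.2 r hr h
    have hz2 : z ≤ 2 * x := by
      rcases hbet _ h2x with h | h
      · have := hxP.1
        omega
      · exact h
    exact ⟨hxX, le_trans hz2 (by omega)⟩
  refine ⟨hfin, ?_⟩
  -- real estimates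
  have hlog16 : 0 < Real.log 16 := Real.log_pos (by norm_num)
  have hu : Real.log 16 ≤ Real.log X := Real.log_le_log (by norm_num) hX
  have hu0 : 0 < Real.log X := lt_of_lt_of_le hlog16 hu
  have hv : Real.log (Real.log 16) ≤ Real.log (Real.log X) := Real.log_le_log hlog16 hu
  have hv1 : 1 < Real.log (Real.log X) := lt_of_lt_of_le ll16 hv
  have hw : c ≤ Real.log (Real.log (Real.log X)) :=
    Real.log_le_log (lt_trans one_pos ll16) hv
  set L : ℝ := Real.log (Real.log (Real.log X)) with hL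
  have hll : Real.log (Real.log (2 * Real.log X)) ≤ 1 + L := by
    have e1 : Real.log (2 * Real.log X) = Real.log 2 + Real.log (Real.log X) :=
      Real.log_mul (by norm_num) hu0.ne'
    have hlog2 : Real.log 2 < 1 := by
      have := Real.log_two_lt_d9
      linarith
    have hlog20 : 0 < Real.log 2 := Real.log_pos (by norm_num)
    have e2 : Real.log (2 * Real.log X) ≤ 2 * Real.log (Real.log X) := by
      rw [e1]; linarith
    have e3 : Real.log (Real.log (2 * Real.log X)) ≤ Real.log (2 * Real.log (Real.log X)) := by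
      apply Real.log_le_log _ e2
      rw [e1]; linarith
    have e4 : Real.log (2 * Real.log (Real.log X)) = Real.log 2 + L :=
      Real.log_mul (by norm_num) (by linarith)
    rw [e4] at e3
    linarith
  have h5 : 5 ≤ 2 * Real.log X := by
    have h6 : Real.log 16 = 4 * Real.log 2 := by
      rw [show (16 : ℝ) = 2 ^ 4 by norm_num, Real.log_pow]
      norm_num
    have h7 := Real.log_two_gt_d9
    linarith
  -- the finite sets of exponents
  set T : ℕ × ℕ → Finset ℕ := fun pq =>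
    (Finset.range (⌊2 * Real.log X⌋₊ + 1)).filter (fun a => TP pq.1 pq.2 a) with hT
  have hTcard : ∀ pq ∈ P ×ˢ P, ((T pq).card : ℝ) ≤ 3 + 2 * L := by
    intro pq hpq
    rw [Finset.mem_product] at hpq
    have h8 := h3 (T pq) (2 * Real.log X) ?_ ?_ ?_ h5
    · linarith
    · intro a ha
      exact (Finset.mem_filter.mp ha).2.1
    · intro a ha
      have h9 := Finset.mem_range.mp (Finset.mem_filter.mp ha).1
      have h10 : a ≤ ⌊2 * Real.log X⌋₊ := by omega
      exact (Nat.le_floor_iff (by linarith)).mp h10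
    · intro a ha a' ha' haa'
      obtain ⟨_, h5a, b, hb1, hbc, hb2, hb3⟩ := Finset.mem_filter.mp ha
      obtain ⟨_, _, b', hb1', hbc', hb2', hb3'⟩ := Finset.mem_filter.mp ha'
      exact h2 pq.1 pq.2 a b a' b' (hP _ hpq.1) (hP _ hpq.2) h5a haa' hb1 hb1' hbc hbc' hb2 hb3
        hb2' hb3'
  set U : Finset ℕ := A' ∪ (P ×ˢ P).biUnion (fun pq => (T pq).image (fun a => pq.1 ^ a)) with hU
  have hmem : ∀ xz ∈ S, xz.1 ∈ U := by
    rintro ⟨x, z⟩ ⟨hx1, hx2, hx3, hx4⟩
    simp only at hx1 hx2 hx3 hx4 ⊢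
    have hxpos : 0 < x := hx2.1.1
    have hxr : (0 : ℝ) < x := by exact_mod_cast hxpos
    by_cases hlt : Real.log x < X₁
    · apply Finset.mem_union_left
      apply Finset.mem_union_left
      rw [Finset.mem_range]
      have h6 : (x : ℝ) < Real.exp X₁ := by
        rw [← Real.log_lt_iff_lt_exp hxr]
        exact hlt
      have h7 : (x : ℝ) < ⌈Real.exp X₁⌉₊ := lt_of_lt_of_le h6 (Nat.le_ceil _)
      have h8 : x < ⌈Real.exp X₁⌉₊ := by exact_mod_cast h7
      omega
    · push Not at hlt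
      obtain ⟨p, q, a, b, hp, hq, hpq, ha, hb, hab, hxe, hze, hd1, hd2⟩ :=
        hC1 (P : Set ℕ) hPs hPys x z hx2 hx3 hx4 hlt
      have hpP : p ∈ P := Finset.mem_coe.mp hp
      have hqP : q ∈ P := Finset.mem_coe.mp hq
      by_cases ha4 : a ≤ 4
      · apply Finset.mem_union_left
        apply Finset.mem_union_right
        rw [Finset.mem_image]
        exact ⟨(p, a), Finset.mem_product.mpr ⟨hpP, Finset.mem_range.mpr (by omega)⟩, hxe.symm⟩
      · apply Finset.mem_union_right
        rw [Finset.mem_biUnion]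
        refine ⟨(p, q), Finset.mem_product.mpr ⟨hpP, hqP⟩, ?_⟩
        rw [Finset.mem_image]
        refine ⟨a, ?_, hxe.symm⟩
        rw [hT, Finset.mem_filter]
        refine ⟨?_, by omega, b, hb, hab, hd1, hd2⟩
        rw [Finset.mem_range]
        have h6 : (a : ℝ) ≤ 2 * Real.log X := by
          have h7 : Real.log x = a * Real.log p := by
            rw [hxe]
            push_cast
            rw [Real.log_pow]
          have h8 : Real.log x ≤ Real.log X := Real.log_le_log hxr hx1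
          have h9 : Real.log 2 ≤ Real.log p := by
            apply Real.log_le_log (by norm_num)
            exact_mod_cast (hP p hpP).two_le
          have h10 := Real.log_two_gt_d9
          have ha0 : (0 : ℝ) ≤ a := Nat.cast_nonneg _
          have h11 : (a : ℝ) * (1 / 2) ≤ a * Real.log p :=
            mul_le_mul_of_nonneg_left (by linarith) ha0
          linarith
        have h12 := Nat.le_floor h6
        omega
  -- the first projection is injective
  have hinj : Set.InjOn Prod.fst S := by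
    rintro ⟨x, z⟩ ⟨_, hx2, _, _⟩ ⟨x', z'⟩ ⟨_, hx2', _, _⟩ he
    simp only at he hx2 hx2'
    subst he
    obtain ⟨_, hzP, hxz, hbet⟩ := hx2
    obtain ⟨_, hzP', hxz', hbet'⟩ := hx2'
    have h6 : z ≤ z' := by
      rcases hbet z' hzP' with h | h
      · omega
      · exact h
    have h7 : z' ≤ z := by
      rcases hbet' z hzP with h | h
      · omega
      · exact h
    rw [le_antisymm h6 h7]
  have hncard : S.ncard ≤ U.card := by
    rw [← hinj.ncard_image, ← Set.ncard_coe_finset U]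
    apply Set.ncard_le_ncard _ (Finset.finite_toSet U)
    rintro x ⟨xz, hxz, rfl⟩
    exact Finset.mem_coe.mpr (hmem xz hxz)
  have hUcard : (U.card : ℝ) ≤ A'.card + (P.card : ℝ) ^ 2 * (3 + 2 * L) := by
    have h6 : U.card ≤ A'.card + ∑ pq ∈ P ×ˢ P, (T pq).card := by
      refine le_trans (Finset.card_union_le _ _) ?_
      apply Nat.add_le_add_left
      refine le_trans Finset.card_biUnion_le ?_
      exact Finset.sum_le_sum fun pq _ => Finset.card_image_le
    have h7 : (U.card : ℝ) ≤ A'.card + ∑ pq ∈ P ×ˢ P, ((T pq).card : ℝ) := by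
      exact_mod_cast h6
    refine le_trans h7 ?_
    have h8 : ∑ pq ∈ P ×ˢ P, ((T pq).card : ℝ) ≤ ∑ pq ∈ P ×ˢ P, (3 + 2 * L) :=
      Finset.sum_le_sum hTcard
    rw [Finset.sum_const, Finset.card_product, nsmul_eq_mul] at h8
    push_cast at h8
    have h9 : (P.card : ℝ) * P.card * (3 + 2 * L) = (P.card : ℝ) ^ 2 * (3 + 2 * L) := by ring
    rw [h9] at h8
    linarith
  have hfinal : (A'.card : ℝ) + (P.card : ℝ) ^ 2 * (3 + 2 * L) ≤
      (((A'.card : ℝ) + 3 * (P.card : ℝ) ^ 2) / c + 2 * (P.card : ℝ) ^ 2) * L := by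
    have h6 : (A'.card : ℝ) + 3 * (P.card : ℝ) ^ 2 ≤
        ((A'.card : ℝ) + 3 * (P.card : ℝ) ^ 2) / c * L := by
      have h7 : ((A'.card : ℝ) + 3 * (P.card : ℝ) ^ 2) / c * c ≤
          ((A'.card : ℝ) + 3 * (P.card : ℝ) ^ 2) / c * L := by
        apply mul_le_mul_of_nonneg_left hw
        positivity
      rwa [div_mul_cancel₀ _ hc0.ne'] at h7
    have h8 : (((A'.card : ℝ) + 3 * (P.card : ℝ) ^ 2) / c + 2 * (P.card : ℝ) ^ 2) * L =
        ((A'.card : ℝ) + 3 * (P.card : ℝ) ^ 2) / c * L + 2 * (P.card : ℝ) ^ 2 * L := by ring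
    rw [h8]
    linarith
  have h6 : (S.ncard : ℝ) ≤ U.card := by exact_mod_cast hncard
  linarith

end Pool.Agent.Helper8.GS
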